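import Pool.Agent.R666.RT.Defs

set_option autoImplicit false

namespace RTR.F

universe u

theorem main : FinStm.{u} := by
  classical
  intro P _ _ hwf1 hwf2 hlub
  -- least element
  obtain ⟨m, -, hm⟩ := hwf1.has_min (Set.univ : Set P) Set.univ_nonempty
  have hbot : ∀ a, m ≤ a := by
    intro a
    obtain ⟨g, hg⟩ := (hlub m a).2
    have h1 : g ≤ m := hg.1 (by simp)
    have h2 : g ≤ a := hg.1 (by simp)
    have h3 : ¬ g < m := hm g (Set.mem_univ g)
    have h4 : g = m := by
      by_contra hne
      exact h3 (lt_of_le_of_ne h1 hne)
    rw [← h4]; exact h2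
  have key : ∀ S : Set P, ∃ c, IsLUB S c := by
    intro S
    let T : Set P := {c | ∃ F : Finset P, (F : Set P) ⊆ S ∧ IsLUB (F : Set P) c}
    have hT : T.Nonempty := by
      refine ⟨m, ∅, by simp, ?_⟩
      refine ⟨by simp [upperBounds], ?_⟩
      intro x _
      exact hbot x
    obtain ⟨c, ⟨F, hFS, hF⟩, hmax⟩ := hwf2.has_min T hT
    refine ⟨c, ?_, ?_⟩
    · intro s hs
      obtain ⟨d, hd⟩ := (hlub c s).1
      have hcd : c ≤ d := hd.1 (by simp)
      have hsd : s ≤ d := hd.1 (by simp)
      have hdT : d ∈ T := by
        refine ⟨insert s F, ?_, ?_⟩
        · intro x hx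
          rw [Finset.mem_coe, Finset.mem_insert] at hx
          rcases hx with rfl | hx
          · exact hs
          · exact hFS hx
        · constructor
          · intro x hx
            rw [Finset.mem_coe, Finset.mem_insert] at hx
            rcases hx with rfl | hx
            · exact hsd
            · exact (hF.1 hx).trans hcd
          · intro y hy
            apply hd.2
            intro x hx
            rcases hx with rfl | hx
            · apply hF.2
              intro z hz
              exact hy (by rw [Finset.mem_coe, Finset.mem_insert]; exact Or.inr hz)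
            · have hx' : x = s := hx
              rw [hx']
              exact hy (by rw [Finset.mem_coe, Finset.mem_insert]; exact Or.inl rfl)
      have h3 : ¬ c < d := hmax d hdT
      have h4 : c = d := by
        by_contra hne
        exact h3 (lt_of_le_of_ne hcd hne)
      rw [h4]; exact hsd
    · intro y hy
      apply hF.2
      intro z hz
      exact hy (hFS hz)
  choose f hf using key
  letI : SupSet P := ⟨f⟩
  exact ⟨completeLatticeOfSup P (fun s => hf s), fun a b => Iff.rfl⟩

end RTR.F
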