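import Pool.Agent.R666.RT.Defs

set_option autoImplicit false

namespace RTR.K

universe u

variable {P : Type u}

theorem retract_of_pair [PartialOrder P] {R : Set P} (h : FromPair R) : IsRetract R := by
  obtain ⟨φ, ω, ⟨⟨h1, h2⟩, -⟩, ⟨⟨h4, h5⟩, -⟩, h7, h8, -, -⟩ := h
  refine ⟨φ ∘ ω, ⟨h1.comp h4, ?_⟩, h8.symm⟩
  intro x
  have h9 : ∀ y, φ (ω y) = ω (φ y) := fun y => congrFun h7 y
  simp only [Function.comp_apply]
  rw [h9 (φ (ω x)), h2, ← h9 (ω x), h5]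

variable [CompleteLattice P] (r : P → P)

def om0 (x : P) : P := sSup {y | y ≤ x ∧ y ≤ r y}

def r1 (x : P) : P := r (om0 r x)

def ph1 (x : P) : P := sInf {f | x ≤ f ∧ r1 r f ≤ f}

def rho (x : P) : P := om0 r (ph1 r x)

def om1 (x : P) : P := x ⊓ rho r x

variable {r}

theorem om0_le (x : P) : om0 r x ≤ x := sSup_le fun _ hy => hy.1

theorem om0_le_r (hm : Monotone r) (x : P) : om0 r x ≤ r (om0 r x) :=
  sSup_le fun _ hy => hy.2.trans (hm (le_sSup hy))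

theorem om0_mono : Monotone (om0 r) := fun _ _ h => sSup_le_sSup fun _ hz => ⟨hz.1.trans h, hz.2⟩

theorem le_om0 {x y : P} (h1 : y ≤ x) (h2 : y ≤ r y) : y ≤ om0 r x := le_sSup ⟨h1, h2⟩

theorem om0_fix {s : P} (hs : r s = s) : om0 r s = s :=
  le_antisymm (om0_le s) (le_om0 le_rfl hs.ge)

theorem r1_mono (hm : Monotone r) : Monotone (r1 r) := fun _ _ h => hm (om0_mono h)

theorem r1_fix {s : P} (hs : r s = s) : r1 r s = s := by
  rw [r1, om0_fix hs, hs]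

theorem factA (hm : Monotone r) (hi : ∀ x, r (r x) = r x) (x : P) (h : r1 r x ≤ x) :
    r (om0 r x) = om0 r x :=
  le_antisymm (le_om0 h (hi _).ge) (om0_le_r hm x)

theorem le_ph1 (x : P) : x ≤ ph1 r x := le_sInf fun _ hf => hf.1

theorem r1_ph1 (hm : Monotone r) (x : P) : r1 r (ph1 r x) ≤ ph1 r x :=
  le_sInf fun _ hf => (r1_mono hm (sInf_le hf)).trans hf.2

theorem ph1_mono : Monotone (ph1 r) := fun _ _ h => sInf_le_sInf fun _ hf => ⟨h.trans hf.1, hf.2⟩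

theorem ph1_le {x f : P} (h1 : x ≤ f) (h2 : r1 r f ≤ f) : ph1 r x ≤ f := sInf_le ⟨h1, h2⟩

theorem ph1_fix {s : P} (hs : r s = s) : ph1 r s = s :=
  le_antisymm (ph1_le le_rfl (r1_fix hs).le) (le_ph1 s)

theorem ph1_ph1 (hm : Monotone r) (x : P) : ph1 r (ph1 r x) = ph1 r x :=
  le_antisymm (ph1_le le_rfl (r1_ph1 hm x)) (le_ph1 _)

theorem rho_mem (hm : Monotone r) (hi : ∀ x, r (r x) = r x) (x : P) : r (rho r x) = rho r x :=
  factA hm hi _ (r1_ph1 hm x)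

theorem rho_mono : Monotone (rho r) := om0_mono.comp ph1_mono

theorem rho_fix {s : P} (hs : r s = s) : rho r s = s := by
  rw [rho, ph1_fix hs, om0_fix hs]

theorem rho_le (x : P) : rho r x ≤ ph1 r x := om0_le _

theorem rho_ph1 (hm : Monotone r) (x : P) : rho r (ph1 r x) = rho r x := by
  rw [rho, ph1_ph1 hm, rho]

theorem factB [IsModularLattice P] (hm : Monotone r) (hi : ∀ x, r (r x) = r x) (x : P) :
    ph1 r (x ⊓ rho r x) = rho r x := by
  have hq := rho_mem hm hi x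
  have hyq : ph1 r (x ⊓ rho r x) ≤ rho r x := by
    have := ph1_mono (r := r) (inf_le_right : x ⊓ rho r x ≤ rho r x)
    rwa [ph1_fix hq] at this
  have hmod : (x ⊔ ph1 r (x ⊓ rho r x)) ⊓ rho r x ≤ ph1 r (x ⊓ rho r x) := by
    rw [sup_comm, sup_inf_assoc_of_le x hyq]
    exact sup_le le_rfl (le_ph1 _)
  have h1 : om0 r (x ⊔ ph1 r (x ⊓ rho r x)) ≤ rho r x :=
    om0_mono (sup_le (le_ph1 x) (hyq.trans (rho_le x)))
  have h3 : om0 r (x ⊔ ph1 r (x ⊓ rho r x)) ≤ ph1 r (x ⊓ rho r x) :=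
    (le_inf (om0_le _) h1).trans hmod
  have h4 : om0 r (x ⊔ ph1 r (x ⊓ rho r x)) = om0 r (ph1 r (x ⊓ rho r x)) :=
    le_antisymm (le_om0 h3 (om0_le_r hm _)) (om0_mono le_sup_right)
  have h5 : r (om0 r (ph1 r (x ⊓ rho r x))) = om0 r (ph1 r (x ⊓ rho r x)) :=
    factA hm hi _ (r1_ph1 hm _)
  have h6 : r1 r (x ⊔ ph1 r (x ⊓ rho r x)) ≤ x ⊔ ph1 r (x ⊓ rho r x) := by
    rw [r1, h4, h5]
    exact (om0_le _).trans le_sup_right
  have h7 : ph1 r x ≤ x ⊔ ph1 r (x ⊓ rho r x) := ph1_le le_sup_left h6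
  exact le_antisymm hyq ((le_inf ((rho_le x).trans h7) le_rfl).trans hmod)

theorem pair_of_retract [IsModularLattice P] {R : Set P} (h : IsRetract R) : FromPair R := by
  obtain ⟨r, ⟨hm, hi⟩, rfl⟩ := h
  have hcomp : ∀ x, ph1 r (om1 r x) = rho r x := fun x => factB hm hi x
  have hcomp' : ∀ x, om1 r (ph1 r x) = rho r x := by
    intro x
    rw [om1, rho_ph1 hm]
    exact inf_eq_right.2 (rho_le x)
  have hrho : ∀ x, rho r (om1 r x) = rho r x := by
    intro x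
    rw [rho, hcomp x, om0_fix (rho_mem hm hi x)]
  have hom : ∀ x, om1 r (om1 r x) = om1 r x := by
    intro x
    show om1 r x ⊓ rho r (om1 r x) = om1 r x
    rw [hrho]
    exact inf_eq_left.2 inf_le_right
  have hrange : Set.range r = Set.range (rho r) := by
    ext y
    constructor
    · rintro ⟨x, rfl⟩
      exact ⟨r x, rho_fix (hi x)⟩
    · rintro ⟨x, rfl⟩
      exact ⟨_, rho_mem hm hi x⟩
  refine ⟨ph1 r, om1 r, ⟨⟨ph1_mono, ph1_ph1 hm⟩, le_ph1⟩,
    ⟨⟨fun x y h => inf_le_inf h (rho_mono h), hom⟩, fun x => inf_le_left⟩, ?_, ?_, ?_, ?_⟩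
  · funext x
    simp only [Function.comp_apply]
    rw [hcomp, hcomp']
  · rw [hrange]
    congr 1
    funext x
    exact (hcomp x).symm
  · rw [hrange]
    congr 1
    funext x
    exact (hcomp' x).symm
  · ext y
    constructor
    · rintro ⟨x, rfl⟩
      refine ⟨⟨r x, ph1_fix (hi x)⟩, ⟨r x, ?_⟩⟩
      rw [om1, rho_fix (hi x), inf_idem]
    · rintro ⟨⟨x, hx⟩, ⟨z, hz⟩⟩
      have h1 : ph1 r y = y := by rw [← hx, ph1_ph1 hm]
      have h2 : om1 r y = y := by rw [← hz, hom]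
      refine ⟨rho r y, ?_⟩
      rw [rho_mem hm hi, ← hcomp, h2, h1]

theorem main : CompStm.{u} := by
  intro P _ _ R _
  exact ⟨pair_of_retract, retract_of_pair⟩

end RTR.K
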