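import Pool.Agent.R666.RT.Defs

set_option autoImplicit false

namespace RTR.L

universe u

theorem retract_of_pair {P : Type u} [PartialOrder P] {R : Set P} (h : FromPair R) :
    IsRetract R := by
  obtain ⟨φ, ω, hφ, hω, hcomm, h1, h2, h3⟩ := h
  refine ⟨φ ∘ ω, ⟨hφ.1.1.comp hω.1.1, ?_⟩, h1.symm⟩
  intro x
  show φ (ω (φ (ω x))) = φ (ω x)
  have e : ω (φ (ω x)) = φ (ω (ω x)) := (congrFun hcomm (ω x)).symm
  rw [e, hω.1.2, hφ.1.2]

theorem main : ChainStm.{u} := by
  intro P _ R hR
  refine ⟨?_, retract_of_pair⟩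
  rintro ⟨r, ⟨hm, hi⟩, rfl⟩
  have A1 : ∀ x, r x ≤ x → max x (r x) = x ∧ min x (r x) = r x := fun x h =>
    ⟨max_eq_left h, min_eq_right h⟩
  have A2 : ∀ x, x ≤ r x → max x (r x) = r x ∧ min x (r x) = x := fun x h =>
    ⟨max_eq_right h, min_eq_left h⟩
  have B1 : ∀ x, max (r x) (r (r x)) = r x := fun x => by rw [hi, max_self]
  have B2 : ∀ x, min (r x) (r (r x)) = r x := fun x => by rw [hi, min_self]
  have C1 : ∀ x, max (min x (r x)) (r (min x (r x))) = r x := by
    intro x
    rcases le_total (r x) x with h | h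
    · rw [(A1 x h).2, B1]
    · rw [(A2 x h).2, (A2 x h).1]
  have C2 : ∀ x, min (max x (r x)) (r (max x (r x))) = r x := by
    intro x
    rcases le_total (r x) x with h | h
    · rw [(A1 x h).1, (A1 x h).2]
    · rw [(A2 x h).1, B2]
  refine ⟨fun x => max x (r x), fun x => min x (r x), ⟨⟨?_, ?_⟩, fun x => le_max_left _ _⟩,
    ⟨⟨?_, ?_⟩, fun x => min_le_left _ _⟩, ?_, ?_, ?_, ?_⟩
  · intro x y hxy
    exact max_le_max hxy (hm hxy)
  · intro x
    show max (max x (r x)) (r (max x (r x))) = max x (r x)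
    rcases le_total (r x) x with h | h
    · rw [(A1 x h).1, (A1 x h).1]
    · rw [(A2 x h).1, B1]
  · intro x y hxy
    exact min_le_min hxy (hm hxy)
  · intro x
    show min (min x (r x)) (r (min x (r x))) = min x (r x)
    rcases le_total (r x) x with h | h
    · rw [(A1 x h).2, B2]
    · rw [(A2 x h).2, (A2 x h).2]
  · funext x
    show max (min x (r x)) (r (min x (r x))) = min (max x (r x)) (r (max x (r x)))
    rw [C1, C2]
  · have : ((fun x => max x (r x)) ∘ fun x => min x (r x)) = r := by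
      funext x; exact C1 x
    rw [this]
  · have : ((fun x => min x (r x)) ∘ fun x => max x (r x)) = r := by
      funext x; exact C2 x
    rw [this]
  · apply Set.eq_of_subset_of_subset
    · rintro _ ⟨x, rfl⟩
      exact ⟨⟨r x, B1 x⟩, ⟨r x, B2 x⟩⟩
    · rintro y ⟨⟨a, ha⟩, ⟨b, hb⟩⟩
      have h1 : r y ≤ y := by
        have ha' : max a (r a) = y := ha
        rcases le_total (r a) a with h | h
        · rw [(A1 a h).1] at ha'; rw [← ha']; exact h
        · rw [(A2 a h).1] at ha'; rw [← ha', hi]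
      have h2 : y ≤ r y := by
        have hb' : min b (r b) = y := hb
        rcases le_total (r b) b with h | h
        · rw [(A1 b h).2] at hb'; rw [← hb', hi]
        · rw [(A2 b h).2] at hb'; rw [← hb']; exact h
      exact ⟨y, le_antisymm h1 h2⟩

end RTR.L
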