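import Pool.Agent.R666.RT.Defs

set_option autoImplicit false

namespace RTR.M

universe u

theorem main : ModStm.{u} := by
  classical
  intro P _ hC
  refine ⟨?_⟩
  intro a b c hac
  by_contra h
  set q0 : P := a ⊔ b ⊓ c with hq0
  set q1 : P := (a ⊔ b) ⊓ c with hq1
  have h01 : q0 ≤ q1 := by
    refine sup_le (le_inf le_sup_left hac) (le_inf ?_ inf_le_right)
    exact inf_le_left.trans le_sup_right
  have hret : IsRetract ({q0, q1} : Set P) := by
    refine ⟨fun y => if q1 ≤ y then q1 else q0, ⟨?_, ?_⟩, ?_⟩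
    · intro y z hyz
      show (if q1 ≤ y then q1 else q0) ≤ (if q1 ≤ z then q1 else q0)
      by_cases hy : q1 ≤ y
      · rw [if_pos hy, if_pos (hy.trans hyz)]
      · rw [if_neg hy]
        by_cases hz : q1 ≤ z
        · rw [if_pos hz]; exact h01
        · rw [if_neg hz]
    · intro x
      show (if q1 ≤ (if q1 ≤ x then q1 else q0) then q1 else q0) = (if q1 ≤ x then q1 else q0)
      by_cases hx : q1 ≤ x
      · rw [if_pos hx, if_pos le_rfl]
      · rw [if_neg hx, if_neg h]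
    · apply Set.eq_of_subset_of_subset
      · rintro _ ⟨y, rfl⟩
        show (if q1 ≤ y then q1 else q0) ∈ _
        by_cases hy : q1 ≤ y
        · rw [if_pos hy]; exact Or.inr rfl
        · rw [if_neg hy]; exact Or.inl rfl
      · rintro y (rfl | rfl)
        · exact ⟨q0, if_neg h⟩
        · exact ⟨q1, if_pos le_rfl⟩
  obtain ⟨φ, ω, hφ, hω, hcomm, h1, h2, h3⟩ := (hC {q0, q1} ⟨q0, Or.inl rfl⟩).1 hret
  have fφ : ∀ s ∈ ({q0, q1} : Set P), φ s = s := by
    intro s hs
    rw [h3] at hs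
    obtain ⟨y, hy⟩ := hs.1
    rw [← hy]; exact hφ.1.2 y
  have fω : ∀ s ∈ ({q0, q1} : Set P), ω s = s := by
    intro s hs
    rw [h3] at hs
    obtain ⟨y, hy⟩ := hs.2
    rw [← hy]; exact hω.1.2 y
  have hc : φ (ω b) = ω (φ b) := congrFun hcomm b
  have hmem : φ (ω b) ∈ ({q0, q1} : Set P) := by
    have : (φ ∘ ω) b ∈ Set.range (φ ∘ ω) := ⟨b, rfl⟩
    rw [← h1] at this
    exact this
  rcases hmem with hm | hm
  · have e1 : q0 ≤ φ b := by rw [← hm]; exact hφ.1.1 (hω.2 b)
    have e2 : b ≤ φ b := hφ.2 b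
    have e3 : q1 ≤ φ b := by
      have : q1 ≤ q0 ⊔ b := by
        refine inf_le_left.trans (sup_le (le_sup_left.trans le_sup_left) le_sup_right)
      exact this.trans (sup_le e1 e2)
    have e4 : ω q1 ≤ ω (φ b) := hω.1.1 e3
    rw [fω q1 (Or.inr rfl), ← hc, hm] at e4
    exact h e4
  · have hm' : φ (ω b) = q1 := hm
    have e1 : ω b ≤ b := hω.2 b
    have e2 : ω b ≤ q1 := by
      rw [← hm', hc]; exact hω.1.1 (hφ.2 b)
    have e3 : ω b ≤ q0 := by
      have : ω b ≤ b ⊓ c := le_inf e1 (e2.trans inf_le_right)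
      exact this.trans le_sup_right
    have e4 : φ (ω b) ≤ φ q0 := hφ.1.1 e3
    rw [fφ q0 (Or.inl rfl), hm'] at e4
    exact h e4

end RTR.M
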