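import Pool.Agent.R666.RT.Defs

set_option autoImplicit false

namespace RTR.N

universe u

variable {P : Type u} [PartialOrder P]

theorem pair (hC : PropC P) (R : Set P) (hR : R.Nonempty) (h : IsRetract R) :
    ∃ φ ω : P → P, Monotone φ ∧ Monotone ω ∧ (∀ x, x ≤ φ x) ∧ (∀ x, ω x ≤ x) ∧
      (∀ x, φ (ω x) ∈ R) ∧ (∀ x, φ (ω x) = ω (φ x)) ∧ ∀ s ∈ R, φ s = s ∧ ω s = s := by
  obtain ⟨φ, ω, ⟨⟨h1, h2⟩, h3⟩, ⟨⟨h4, h5⟩, h6⟩, h7, h8, -, h10⟩ := (hC R hR).1 h
  refine ⟨φ, ω, h1, h4, h3, h6, ?_, fun x => congrFun h7 x, ?_⟩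
  · intro x
    rw [h8]
    exact ⟨x, rfl⟩
  · intro s hs
    rw [h10] at hs
    obtain ⟨⟨x, hx⟩, ⟨y, hy⟩⟩ := hs
    exact ⟨by rw [← hx, h2], by rw [← hy, h5]⟩

theorem bounds (hC : PropC P) (a b : P) : (∃ d, d ≤ a ∧ d ≤ b) ∧ ∃ e, a ≤ e ∧ b ≤ e := by
  obtain ⟨φ, ω, h1, h2, h3, h4, h5, h6, h7⟩ := pair hC {a} (Set.singleton_nonempty a)
    ⟨fun _ => a, ⟨fun _ _ _ => le_rfl, fun _ => rfl⟩, by
      haveI : Nonempty P := ⟨a⟩
      exact Set.range_const⟩
  have h8 : φ (ω b) = a := h5 b
  constructor
  · refine ⟨ω b, ?_, h4 b⟩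
    rw [← h8]
    exact h3 _
  · refine ⟨φ b, ?_, h3 b⟩
    rw [← h8, h6]
    exact h4 _

theorem lub (hC : PropC P) (a b : P) : ∃ c, IsLUB {a, b} c := by
  classical
  obtain ⟨d, hda, hdb⟩ := (bounds hC a b).1
  have hret : IsRetract (P := P) ({a} ∪ upperBounds {a, b}) := by
    refine ⟨fun x => if x ∈ upperBounds ({a, b} : Set P) then x else a, ⟨?_, ?_⟩, ?_⟩
    · intro x y hxy
      by_cases hx : x ∈ upperBounds ({a, b} : Set P)
      · have hy : y ∈ upperBounds ({a, b} : Set P) := fun z hz => (hx hz).trans hxy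
        simp only [hx, hy, if_true]
        exact hxy
      · by_cases hy : y ∈ upperBounds ({a, b} : Set P)
        · simp only [hx, hy, if_true, if_false]
          exact hy (by simp)
        · simp only [hx, hy, if_false]
          exact le_rfl
    · intro x
      by_cases hx : x ∈ upperBounds ({a, b} : Set P)
      · simp only [hx, if_true]
      · simp only [hx, if_false]
        split_ifs <;> rfl
    · ext y
      constructor
      · rintro ⟨x, rfl⟩
        by_cases hx : x ∈ upperBounds ({a, b} : Set P)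
        · simp only [hx, if_true]
          exact Or.inr hx
        · simp only [hx, if_false]
          exact Or.inl rfl
      · rintro (rfl | hy)
        · refine ⟨d, ?_⟩
          dsimp only
          split_ifs with hd
          · exact le_antisymm hda (hd (by simp))
          · rfl
        · exact ⟨y, by simp only [hy, if_true]⟩
  obtain ⟨φ, ω, h1, h2, h3, h4, h5, h6, h7⟩ := pair hC _ ⟨a, Or.inl rfl⟩ hret
  have h8 : φ (ω d) = a := by
    have h9 : φ (ω d) ≤ a := by
      have := h1 (h2 hda)
      rwa [(h7 a (Or.inl rfl)).2, (h7 a (Or.inl rfl)).1] at this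
    rcases h5 d with h10 | h10
    · exact h10
    · exact le_antisymm h9 (h10 (by simp))
  have h11 : a ≤ φ b := by
    calc a = φ (ω d) := h8.symm
      _ ≤ φ d := h1 (h4 d)
      _ ≤ φ b := h1 hdb
  refine ⟨φ b, ?_, ?_⟩
  · rintro z hz
    rcases hz with rfl | hz
    · exact h11
    · rw [Set.mem_singleton_iff.1 hz]
      exact h3 b
  · intro u hu
    have h12 := (h7 u (Or.inr hu)).1
    rw [← h12]
    exact h1 (hu (by simp))

theorem glb (hC : PropC P) (a b : P) : ∃ c, IsGLB {a, b} c := by
  classical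
  obtain ⟨d, hda, hdb⟩ := (bounds hC a b).2
  have hret : IsRetract (P := P) ({a} ∪ lowerBounds {a, b}) := by
    refine ⟨fun x => if x ∈ lowerBounds ({a, b} : Set P) then x else a, ⟨?_, ?_⟩, ?_⟩
    · intro x y hxy
      by_cases hy : y ∈ lowerBounds ({a, b} : Set P)
      · have hx : x ∈ lowerBounds ({a, b} : Set P) := fun z hz => hxy.trans (hy hz)
        simp only [hx, hy, if_true]
        exact hxy
      · by_cases hx : x ∈ lowerBounds ({a, b} : Set P)
        · simp only [hx, hy, if_true, if_false]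
          exact hx (by simp)
        · simp only [hx, hy, if_false]
          exact le_rfl
    · intro x
      by_cases hx : x ∈ lowerBounds ({a, b} : Set P)
      · simp only [hx, if_true]
      · simp only [hx, if_false]
        split_ifs <;> rfl
    · ext y
      constructor
      · rintro ⟨x, rfl⟩
        by_cases hx : x ∈ lowerBounds ({a, b} : Set P)
        · simp only [hx, if_true]
          exact Or.inr hx
        · simp only [hx, if_false]
          exact Or.inl rfl
      · rintro (rfl | hy)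
        · refine ⟨d, ?_⟩
          dsimp only
          split_ifs with hd
          · exact le_antisymm (hd (by simp)) hda
          · rfl
        · exact ⟨y, by simp only [hy, if_true]⟩
  obtain ⟨φ, ω, h1, h2, h3, h4, h5, h6, h7⟩ := pair hC _ ⟨a, Or.inl rfl⟩ hret
  have h8 : ω (φ d) = a := by
    have h9 : a ≤ ω (φ d) := by
      have := h2 (h1 hda)
      rwa [(h7 a (Or.inl rfl)).1, (h7 a (Or.inl rfl)).2] at this
    have h10 := h5 d
    rw [h6] at h10
    rcases h10 with h10 | h10
    · exact h10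
    · exact le_antisymm (h10 (by simp)) h9
  have h11 : ω b ≤ a := by
    calc ω b ≤ ω d := h2 hdb
      _ ≤ ω (φ d) := h2 (h3 d)
      _ = a := h8
  refine ⟨ω b, ?_, ?_⟩
  · rintro z hz
    rcases hz with rfl | hz
    · exact h11
    · rw [Set.mem_singleton_iff.1 hz]
      exact h4 b
  · intro u hu
    have h12 := (h7 u (Or.inr hu)).2
    rw [← h12]
    exact h2 (hu (by simp))

theorem main : LatStm.{u} := by
  intro P _ hC a b
  exact ⟨lub hC a b, glb hC a b⟩

end RTR.N
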