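import Pool.Agent.R666.RT.Defs

/-!
# The reading without commutation
-/

set_option autoImplicit false

namespace RTR

universe u

/-- `R` arises from a pair of a closure operator `φ` and an anticlosure operator `ω` with
`R = φω(P) = ωφ(P) = φ(P) ∩ ω(P)` (no commutation required). -/
def FromPairW {P : Type*} [PartialOrder P] (R : Set P) : Prop :=
  ∃ φ ω : P → P, IsClosureOp φ ∧ IsAnticlosureOp ω ∧
    R = Set.range (φ ∘ ω) ∧ R = Set.range (ω ∘ φ) ∧ R = Set.range φ ∩ Set.range ω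

/-- Property (C) without the requirement that the two operators commute. -/
def PropW (P : Type*) [PartialOrder P] : Prop :=
  ∀ R : Set P, R.Nonempty → (IsRetract R ↔ FromPairW R)

/-- The partial order of `P` is that of a lattice. -/
def IsLat (P : Type*) [PartialOrder P] : Prop :=
  ∃ L : Lattice P, ∀ a b : P, L.le a b ↔ a ≤ b

namespace W

theorem retract_of {P : Type*} [PartialOrder P] {R : Set P} (h : FromPairW R) : IsRetract R := by
  obtain ⟨φ, ω, ⟨⟨h1, h2⟩, h3⟩, ⟨⟨h4, h5⟩, h6⟩, h8, h9, h10⟩ := h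
  refine ⟨φ ∘ ω, ⟨h1.comp h4, ?_⟩, h8.symm⟩
  intro x
  have hx : (φ ∘ ω) x ∈ R := by rw [h8]; exact ⟨x, rfl⟩
  rw [h10] at hx
  obtain ⟨⟨y, hy⟩, ⟨z, hz⟩⟩ := hx
  show φ (ω ((φ ∘ ω) x)) = (φ ∘ ω) x
  rw [← hz, h5, hz, ← hy, h2]

theorem comp (P : Type u) [CompleteLattice P] : PropW P := by
  intro R hR
  refine ⟨?_, retract_of⟩
  rintro ⟨r, ⟨hr1, hr2⟩, hr3⟩
  let φ : P → P := fun x => sInf {f | x ≤ f ∧ r f ≤ f}
  let ω : P → P := fun x => sSup {f | f ≤ x ∧ f ≤ r f}
  have a1 : ∀ x, x ≤ φ x := fun x => le_sInf fun f hf => hf.1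
  have a2 : ∀ x, r (φ x) ≤ φ x := fun x => le_sInf fun f hf => (hr1 (sInf_le hf)).trans hf.2
  have a3 : ∀ x f, x ≤ f → r f ≤ f → φ x ≤ f := fun x f h1 h2 => sInf_le ⟨h1, h2⟩
  have b1 : ∀ x, ω x ≤ x := fun x => sSup_le fun f hf => hf.1
  have b2 : ∀ x, ω x ≤ r (ω x) := fun x => sSup_le fun f hf => hf.2.trans (hr1 (le_sSup hf))
  have b3 : ∀ x f, f ≤ x → f ≤ r f → f ≤ ω x := fun x f h1 h2 => le_sSup ⟨h1, h2⟩
  have a4 : Monotone φ := fun x y h => a3 x _ (h.trans (a1 y)) (a2 y)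
  have b4 : Monotone ω := fun x y h => b3 y _ ((b1 x).trans h) (b2 x)
  have a5 : ∀ x, φ (φ x) = φ x := fun x => le_antisymm (a3 _ _ le_rfl (a2 x)) (a1 _)
  have b5 : ∀ x, ω (ω x) = ω x := fun x => le_antisymm (b1 _) (b3 _ _ le_rfl (b2 x))
  have hm : ∀ x, x ∈ R ↔ r x = x := by
    intro x
    rw [← hr3]
    constructor
    · rintro ⟨y, rfl⟩; exact hr2 y
    · intro h; exact ⟨x, h⟩
  have a6 : ∀ x, x ∈ R → φ x = x := fun x hx =>
    le_antisymm (a3 _ _ le_rfl ((hm x).1 hx).le) (a1 _)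
  have b6 : ∀ x, x ∈ R → ω x = x := fun x hx =>
    le_antisymm (b1 _) (b3 _ _ le_rfl ((hm x).1 hx).ge)
  -- φ (w) = r w for w ≤ r w
  have c1 : ∀ w, w ≤ r w → φ w = r w := by
    intro w hw
    apply le_antisymm
    · exact a3 _ _ hw (hr2 w).le
    · exact (hr1 (a1 w)).trans (a2 w)
  have c2 : ∀ f, r f ≤ f → ω f = r f := by
    intro f hf
    apply le_antisymm
    · exact (b2 f).trans (hr1 (b1 f))
    · exact b3 _ _ hf (hr2 f).ge
  refine ⟨φ, ω, ⟨⟨a4, a5⟩, a1⟩, ⟨⟨b4, b5⟩, b1⟩, ?_, ?_, ?_⟩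
  · ext y
    constructor
    · intro hy
      exact ⟨y, by show φ (ω y) = y; rw [b6 y hy, a6 y hy]⟩
    · rintro ⟨x, rfl⟩
      show φ (ω x) ∈ R
      rw [c1 _ (b2 x), hm, hr2]
  · ext y
    constructor
    · intro hy
      exact ⟨y, by show ω (φ y) = y; rw [a6 y hy, b6 y hy]⟩
    · rintro ⟨x, rfl⟩
      show ω (φ x) ∈ R
      rw [c2 _ (a2 x), hm, hr2]
  · ext y
    constructor
    · intro hy
      exact ⟨⟨y, a6 y hy⟩, ⟨y, b6 y hy⟩⟩
    · rintro ⟨⟨x, hx⟩, ⟨z, hz⟩⟩
      rw [hm]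
      apply le_antisymm
      · rw [← hx]; exact a2 x
      · rw [← hz]; exact b2 z

variable {P : Type u} [PartialOrder P]

theorem pair (hC : PropW P) (R : Set P) (hR : R.Nonempty) (h : IsRetract R) :
    ∃ φ ω : P → P, Monotone φ ∧ Monotone ω ∧ (∀ x, x ≤ φ x) ∧ (∀ x, ω x ≤ x) ∧
      (∀ x, φ (ω x) ∈ R) ∧ (∀ x, ω (φ x) ∈ R) ∧ ∀ s ∈ R, φ s = s ∧ ω s = s := by
  obtain ⟨φ, ω, ⟨⟨h1, h2⟩, h3⟩, ⟨⟨h4, h5⟩, h6⟩, h8, h9, h10⟩ := (hC R hR).1 h
  refine ⟨φ, ω, h1, h4, h3, h6, ?_, ?_, ?_⟩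
  · intro x
    rw [h8]
    exact ⟨x, rfl⟩
  · intro x
    rw [h9]
    exact ⟨x, rfl⟩
  · intro s hs
    rw [h10] at hs
    obtain ⟨⟨x, hx⟩, ⟨y, hy⟩⟩ := hs
    exact ⟨by rw [← hx, h2], by rw [← hy, h5]⟩

theorem bounds (hC : PropW P) (a b : P) : (∃ d, d ≤ a ∧ d ≤ b) ∧ ∃ e, a ≤ e ∧ b ≤ e := by
  obtain ⟨φ, ω, h1, h2, h3, h4, h5, h6, h7⟩ := pair hC {a} (Set.singleton_nonempty a)
    ⟨fun _ => a, ⟨fun _ _ _ => le_rfl, fun _ => rfl⟩, by
      haveI : Nonempty P := ⟨a⟩
      exact Set.range_const⟩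
  have h8 : φ (ω b) = a := h5 b
  have h9 : ω (φ b) = a := h6 b
  constructor
  · refine ⟨ω b, ?_, h4 b⟩
    rw [← h8]
    exact h3 _
  · refine ⟨φ b, ?_, h3 b⟩
    rw [← h9]
    exact h4 _

theorem lub (hC : PropW P) (a b : P) : ∃ c, IsLUB {a, b} c := by
  classical
  obtain ⟨d, hda, hdb⟩ := (bounds hC a b).1
  have hret : IsRetract (P := P) ({a} ∪ upperBounds {a, b}) := by
    refine ⟨fun x => if x ∈ upperBounds ({a, b} : Set P) then x else a, ⟨?_, ?_⟩, ?_⟩
    · intro x y hxy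
      by_cases hx : x ∈ upperBounds ({a, b} : Set P)
      · have hy : y ∈ upperBounds ({a, b} : Set P) := fun z hz => (hx hz).trans hxy
        simp only [hx, hy, if_true]
        exact hxy
      · by_cases hy : y ∈ upperBounds ({a, b} : Set P)
        · simp only [hx, hy, if_true, if_false]
          exact hy (by simp)
        · simp only [hx, hy, if_false]
          exact le_rfl
    · intro x
      by_cases hx : x ∈ upperBounds ({a, b} : Set P)
      · simp only [hx, if_true]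
      · simp only [hx, if_false]
        split_ifs <;> rfl
    · ext y
      constructor
      · rintro ⟨x, rfl⟩
        by_cases hx : x ∈ upperBounds ({a, b} : Set P)
        · simp only [hx, if_true]
          exact Or.inr hx
        · simp only [hx, if_false]
          exact Or.inl rfl
      · rintro (rfl | hy)
        · refine ⟨d, ?_⟩
          dsimp only
          split_ifs with hd
          · exact le_antisymm hda (hd (by simp))
          · rfl
        · exact ⟨y, by simp only [hy, if_true]⟩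
  obtain ⟨φ, ω, h1, h2, h3, h4, h5, h6, h7⟩ := pair hC _ ⟨a, Or.inl rfl⟩ hret
  have h8 : φ (ω d) = a := by
    have h9 : φ (ω d) ≤ a := by
      have := h1 (h2 hda)
      rwa [(h7 a (Or.inl rfl)).2, (h7 a (Or.inl rfl)).1] at this
    rcases h5 d with h10 | h10
    · exact h10
    · exact le_antisymm h9 (h10 (by simp))
  have h11 : a ≤ φ b := by
    calc a = φ (ω d) := h8.symm
      _ ≤ φ d := h1 (h4 d)
      _ ≤ φ b := h1 hdb
  refine ⟨φ b, ?_, ?_⟩
  · rintro z hz
    rcases hz with rfl | hz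
    · exact h11
    · rw [Set.mem_singleton_iff.1 hz]
      exact h3 b
  · intro u hu
    have h12 := (h7 u (Or.inr hu)).1
    rw [← h12]
    exact h1 (hu (by simp))

theorem glb (hC : PropW P) (a b : P) : ∃ c, IsGLB {a, b} c := by
  classical
  obtain ⟨d, hda, hdb⟩ := (bounds hC a b).2
  have hret : IsRetract (P := P) ({a} ∪ lowerBounds {a, b}) := by
    refine ⟨fun x => if x ∈ lowerBounds ({a, b} : Set P) then x else a, ⟨?_, ?_⟩, ?_⟩
    · intro x y hxy
      by_cases hy : y ∈ lowerBounds ({a, b} : Set P)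
      · have hx : x ∈ lowerBounds ({a, b} : Set P) := fun z hz => hxy.trans (hy hz)
        simp only [hx, hy, if_true]
        exact hxy
      · by_cases hx : x ∈ lowerBounds ({a, b} : Set P)
        · simp only [hx, hy, if_true, if_false]
          exact hx (by simp)
        · simp only [hx, hy, if_false]
          exact le_rfl
    · intro x
      by_cases hx : x ∈ lowerBounds ({a, b} : Set P)
      · simp only [hx, if_true]
      · simp only [hx, if_false]
        split_ifs <;> rfl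
    · ext y
      constructor
      · rintro ⟨x, rfl⟩
        by_cases hx : x ∈ lowerBounds ({a, b} : Set P)
        · simp only [hx, if_true]
          exact Or.inr hx
        · simp only [hx, if_false]
          exact Or.inl rfl
      · rintro (rfl | hy)
        · refine ⟨d, ?_⟩
          dsimp only
          split_ifs with hd
          · exact le_antisymm (hd (by simp)) hda
          · rfl
        · exact ⟨y, by simp only [hy, if_true]⟩
  obtain ⟨φ, ω, h1, h2, h3, h4, h5, h6, h7⟩ := pair hC _ ⟨a, Or.inl rfl⟩ hret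
  have h8 : ω (φ d) = a := by
    have h9 : a ≤ ω (φ d) := by
      have := h2 (h1 hda)
      rwa [(h7 a (Or.inl rfl)).1, (h7 a (Or.inl rfl)).2] at this
    have h10 := h6 d
    rcases h10 with h10 | h10
    · exact h10
    · exact le_antisymm (h10 (by simp)) h9
  have h11 : ω b ≤ a := by
    calc ω b ≤ ω d := h2 hdb
      _ ≤ ω (φ d) := h2 (h3 d)
      _ = a := h8
  refine ⟨ω b, ?_, ?_⟩
  · rintro z hz
    rcases hz with rfl | hz
    · exact h11
    · rw [Set.mem_singleton_iff.1 hz]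
      exact h4 b
  · intro u hu
    have h12 := (h7 u (Or.inr hu)).2
    rw [← h12]
    exact h2 (hu (by simp))

theorem lat (P : Type u) [PartialOrder P] (hC : PropW P) (a b : P) :
    (∃ c, IsLUB {a, b} c) ∧ ∃ c, IsGLB {a, b} c :=
  ⟨lub hC a b, glb hC a b⟩

end W

end RTR
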