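import Pool.Agent.R666.RT.X
import Pool.Agent.R666.RT.Weak

set_option autoImplicit false

namespace RTR.X

/-- The poset `ℕ × (ω² + 1)` fails the weaker property as well. -/
theorem weak : ¬ PropW PX := by
  intro hC
  have hr : IsRetract (Set.range g) := by
    refine ⟨fun x => g (k x), ⟨fun x y h => g_mono (k_mono h), fun x => ?_⟩, ?_⟩
    · show g (k (g (k x))) = g (k x)
      rw [k_g]
    · apply Set.eq_of_subset_of_subset
      · rintro _ ⟨x, rfl⟩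
        exact ⟨k x, rfl⟩
      · rintro _ ⟨p, rfl⟩
        exact ⟨g p, by show g (k (g p)) = g p; rw [k_g]⟩
  obtain ⟨φ, ω, hφ, hω, hR1, hR2, hR3⟩ :=
    (hC (Set.range g) ⟨g (toLex (0, 0)), Set.mem_range_self _⟩).1 hr
  have hs : ω (φ (0, ⊤)) ∈ Set.range g := by
    rw [hR2]
    exact ⟨(0, ⊤), rfl⟩
  obtain ⟨p, hp⟩ := hs
  have h1 : g p ≤ φ (0, ⊤) := by
    rw [hp]
    exact hω.2 _
  have h2 : ((0 : ℕ), (⊤ : WithTop (ℕ ×ₗ ℕ))) ≤ φ (0, ⊤) := hφ.2 _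
  set q : ℕ ×ₗ ℕ := toLex ((ofLex p).1, (ofLex p).2 + 1) with hq
  have h3 : g q ≤ φ (0, ⊤) := by
    refine ⟨?_, ?_⟩
    · exact h1.1
    · exact le_top.trans h2.2
  have h4 : g q ∈ Set.range ω := by
    have : g q ∈ Set.range φ ∩ Set.range ω := by
      rw [← hR3]
      exact ⟨q, rfl⟩
    exact this.2
  obtain ⟨z, hz⟩ := h4
  have h5 : ω (g q) = g q := by
    rw [← hz]
    exact hω.1.2 z
  have h6 : g q ≤ g p := by
    rw [hp, ← h5]
    exact hω.1.1 h3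
  have h7 : q ≤ p := WithTop.coe_le_coe.1 h6.2
  rcases (le_lex q p).1 h7 with h8 | ⟨_, h8⟩
  · exact lt_irrefl _ h8
  · have : (ofLex p).2 + 1 ≤ (ofLex p).2 := h8
    omega

end RTR.X
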