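import Pool.Agent.R666.RT.Defs

set_option autoImplicit false

namespace RTR.X

/-- the poset -/
abbrev PX : Type := ℕ × WithTop (ℕ ×ₗ ℕ)

theorem le_lex (p q : ℕ ×ₗ ℕ) :
    p ≤ q ↔ (ofLex p).1 < (ofLex q).1 ∨ (ofLex p).1 = (ofLex q).1 ∧ (ofLex p).2 ≤ (ofLex q).2 :=
  Prod.Lex.le_iff

def g (p : ℕ ×ₗ ℕ) : PX := ((ofLex p).1, (p : WithTop (ℕ ×ₗ ℕ)))

theorem g_mono {p q : ℕ ×ₗ ℕ} (h : p ≤ q) : g p ≤ g q := by
  refine Prod.mk_le_mk.2 ⟨?_, WithTop.coe_le_coe.2 h⟩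
  rcases (le_lex p q).1 h with h1 | h1
  · exact h1.le
  · exact h1.1.le

/-- the first element with first coordinate `n + 1` -/
def nx (n : ℕ) : ℕ ×ₗ ℕ := toLex (n + 1, 0)

theorem nx_mono {n m : ℕ} (h : n ≤ m) : nx n ≤ nx m := by
  rw [le_lex]
  rcases h.lt_or_eq with h1 | h1
  · left
    show n + 1 < m + 1
    omega
  · right
    exact ⟨by show n + 1 = m + 1; omega, le_refl _⟩

def k (x : PX) : ℕ ×ₗ ℕ :=
  match x.2 with
  | ⊤ => nx x.1
  | (p : ℕ ×ₗ ℕ) => min p (nx x.1)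

theorem k_mono {x y : PX} (h : x ≤ y) : k x ≤ k y := by
  obtain ⟨n, β⟩ := x
  obtain ⟨m, γ⟩ := y
  obtain ⟨h1, h2⟩ := Prod.mk_le_mk.1 h
  induction β using WithTop.recTopCoe with
  | top =>
    have : γ = ⊤ := top_le_iff.1 h2
    subst this
    exact nx_mono h1
  | coe p =>
    induction γ using WithTop.recTopCoe with
    | top => exact (min_le_right _ _).trans (nx_mono h1)
    | coe q => exact min_le_min (WithTop.coe_le_coe.1 h2) (nx_mono h1)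

theorem k_g (p : ℕ ×ₗ ℕ) : k (g p) = p := by
  show min p (nx (ofLex p).1) = p
  rw [min_eq_left_iff, le_lex]
  left
  show (ofLex p).1 < (ofLex p).1 + 1
  omega

theorem main : BadStm := by
  intro hC
  have hr : IsRetract (Set.range g) := by
    refine ⟨fun x => g (k x), ⟨fun x y h => g_mono (k_mono h), fun x => ?_⟩, ?_⟩
    · show g (k (g (k x))) = g (k x)
      rw [k_g]
    · apply Set.eq_of_subset_of_subset
      · rintro _ ⟨x, rfl⟩
        exact ⟨k x, rfl⟩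
      · rintro _ ⟨p, rfl⟩
        exact ⟨g p, by show g (k (g p)) = g p; rw [k_g]⟩
  obtain ⟨φ, ω, hφ, hω, hcomm, hR1, hR2, hR3⟩ :=
    (hC (Set.range g) ⟨g (toLex (0, 0)), Set.mem_range_self _⟩).1 hr
  have hs : ω (φ (0, ⊤)) ∈ Set.range g := by
    rw [hR2]
    exact ⟨(0, ⊤), rfl⟩
  obtain ⟨p, hp⟩ := hs
  have h1 : g p ≤ φ (0, ⊤) := by
    rw [hp]
    exact hω.2 _
  have h2 : ((0 : ℕ), (⊤ : WithTop (ℕ ×ₗ ℕ))) ≤ φ (0, ⊤) := hφ.2 _
  set q : ℕ ×ₗ ℕ := toLex ((ofLex p).1, (ofLex p).2 + 1) with hq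
  have h3 : g q ≤ φ (0, ⊤) := by
    refine ⟨?_, ?_⟩
    · exact h1.1
    · exact le_top.trans h2.2
  have h4 : g q ∈ Set.range ω := by
    have : g q ∈ Set.range φ ∩ Set.range ω := by
      rw [← hR3]
      exact ⟨q, rfl⟩
    exact this.2
  obtain ⟨z, hz⟩ := h4
  have h5 : ω (g q) = g q := by
    rw [← hz]
    exact hω.1.2 z
  have h6 : g q ≤ g p := by
    rw [hp, ← h5]
    exact hω.1.1 h3
  have h7 : q ≤ p := WithTop.coe_le_coe.1 h6.2
  rcases (le_lex q p).1 h7 with h8 | ⟨_, h8⟩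
  · exact lt_irrefl _ h8
  · have : (ofLex p).2 + 1 ≤ (ofLex p).2 := h8
    omega

end RTR.X
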