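import Pool.Agent.R666.RT.Asm
import Pool.Agent.R666.RT.N
import Pool.Agent.R666.RT.M
import Pool.Agent.R666.RT.K
import Pool.Agent.R666.RT.L
import Pool.Agent.R666.RT.X
import Pool.Agent.R666.RT.F
import Pool.Agent.R666.RT.Weak
import Pool.Agent.R666.RT.WeakX

set_option autoImplicit false

namespace RTR

universe u

theorem fin_iffW (P : Type u) [inst : PartialOrder P]
    (h1 : WellFounded (fun a b : P => a < b)) (h2 : WellFounded (fun a b : P => b < a)) :
    PropW P ↔ IsLat P := by
  constructor
  · intro h
    exact ⟨mkLat P (W.lat P h), fun a b => Iff.rfl⟩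
  · rintro ⟨L, hL⟩
    rcases isEmpty_or_nonempty P with hP | hP
    · intro R hR
      obtain ⟨x, -⟩ := hR
      exact (hP.false x).elim
    · have hlat : ∀ a b : P, (∃ c, IsLUB {a, b} c) ∧ ∃ c, IsGLB {a, b} c := by
        intro a b
        constructor
        · refine ⟨L.sup a b, ?_, ?_⟩
          · intro x hx
            simp only [Set.mem_insert_iff, Set.mem_singleton_iff] at hx
            rcases hx with rfl | rfl
            · exact (hL _ _).1 (L.le_sup_left _ _)
            · exact (hL _ _).1 (L.le_sup_right _ _)
          · intro x hx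
            refine (hL _ _).1 (L.sup_le _ _ _ ((hL _ _).2 (hx (by simp)))
              ((hL _ _).2 (hx (by simp))))
        · refine ⟨L.inf a b, ?_, ?_⟩
          · intro x hx
            simp only [Set.mem_insert_iff, Set.mem_singleton_iff] at hx
            rcases hx with rfl | rfl
            · exact (hL _ _).1 (L.inf_le_left _ _)
            · exact (hL _ _).1 (L.inf_le_right _ _)
          · intro x hx
            refine (hL _ _).1 (L.le_inf _ _ _ ((hL _ _).2 (hx (by simp)))
              ((hL _ _).2 (hx (by simp))))
      obtain ⟨CL, hCL⟩ := F.main P h1 h2 hlat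
      have e : CL.toLattice.toSemilatticeInf.toPartialOrder = inst := po_ext hCL
      have key : @PropW P CL.toLattice.toSemilatticeInf.toPartialOrder := @W.comp P CL
      rw [e] at key
      exact key

theorem answer :
    (∀ (P : Type u) [PartialOrder P], PropC P → IsModLat P) ∧
    (∀ (P : Type u) [CompleteLattice P], PropC P ↔ IsModularLattice P) ∧
    (∀ (P : Type u) [PartialOrder P], WellFounded (fun a b : P => a < b) →
      WellFounded (fun a b : P => b < a) → (PropC P ↔ IsModLat P)) ∧
    (∀ (P : Type u) [LinearOrder P], PropC P) ∧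
    (¬ PropC (ℕ × WithTop (ℕ ×ₗ ℕ))) ∧
    (∀ (P : Type u) [PartialOrder P], PropW P → IsLat P) ∧
    (∀ (P : Type u) [PartialOrder P], WellFounded (fun a b : P => a < b) →
      WellFounded (fun a b : P => b < a) → (PropW P ↔ IsLat P)) ∧
    (¬ PropW (ℕ × WithTop (ℕ ×ₗ ℕ))) :=
  ⟨fun P _ h => isModLat_of N.main M.main P h, fun P _ => comp_iff M.main K.main P,
    fun P _ h1 h2 => fin_iff N.main M.main K.main F.main P h1 h2, fun P _ => L.main P,
    X.main, fun P _ h => ⟨mkLat P (W.lat P h), fun a b => Iff.rfl⟩,
    fun P _ h1 h2 => fin_iffW P h1 h2, X.weak⟩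

end RTR
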