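import Pool.Agent.R666.RT.Defs

/-!
# Assembly
-/

set_option autoImplicit false

namespace RTR

universe u

/-- Lattice structure with the given order from existence of lub and glb of pairs. -/
noncomputable def mkLat (P : Type u) [inst : PartialOrder P]
    (h : ∀ a b : P, (∃ c, IsLUB {a, b} c) ∧ ∃ c, IsGLB {a, b} c) : Lattice P :=
  { inst with
    sup := fun a b => Classical.choose (h a b).1
    inf := fun a b => Classical.choose (h a b).2
    le_sup_left := fun a b => (Classical.choose_spec (h a b).1).1 (by simp)
    le_sup_right := fun a b => (Classical.choose_spec (h a b).1).1 (by simp)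
    sup_le := fun a b c hac hbc => (Classical.choose_spec (h a b).1).2 (by
      intro x hx; simp only [Set.mem_insert_iff, Set.mem_singleton_iff] at hx
      rcases hx with rfl | rfl <;> assumption)
    inf_le_left := fun a b => (Classical.choose_spec (h a b).2).1 (by simp)
    inf_le_right := fun a b => (Classical.choose_spec (h a b).2).1 (by simp)
    le_inf := fun a b c hab hac => (Classical.choose_spec (h b c).2).2 (by
      intro x hx; simp only [Set.mem_insert_iff, Set.mem_singleton_iff] at hx
      rcases hx with rfl | rfl <;> assumption) }

theorem isModLat_of (N : LatStm.{u}) (M : ModStm.{u}) (P : Type u) [inst : PartialOrder P]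
    (h : PropC P) : IsModLat P := by
  refine ⟨mkLat P (N P h), fun a b => Iff.rfl, ?_⟩
  exact @M P (mkLat P (N P h)) h

theorem po_ext {P : Type u} {A B : PartialOrder P} (h : ∀ a b : P, A.le a b ↔ B.le a b) :
    A = B := by
  apply PartialOrder.ext
  exact h

theorem comp_iff (M : ModStm.{u}) (K : CompStm.{u}) (P : Type u) [CompleteLattice P] :
    PropC P ↔ IsModularLattice P :=
  ⟨fun h => M P h, fun h => K P⟩

/-- A modular lattice satisfies the modular law for lub and glb; transfer between structures. -/
theorem modular_transfer {P : Type u} (A B : Lattice P) (h : ∀ a b : P, A.le a b ↔ B.le a b)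
    (hA : @IsModularLattice P A) : @IsModularLattice P B := by
  have : A = B := Lattice.ext h
  subst this
  exact hA

theorem fin_iff (N : LatStm.{u}) (M : ModStm.{u}) (K : CompStm.{u}) (F : FinStm.{u})
    (P : Type u) [inst : PartialOrder P]
    (h1 : WellFounded (fun a b : P => a < b)) (h2 : WellFounded (fun a b : P => b < a)) :
    PropC P ↔ IsModLat P := by
  refine ⟨isModLat_of N M P, ?_⟩
  rintro ⟨L, hL, hmod⟩
  rcases isEmpty_or_nonempty P with hP | hP
  · intro R hR
    obtain ⟨x, -⟩ := hR
    exact (hP.false x).elim
  · have hlat : ∀ a b : P, (∃ c, IsLUB {a, b} c) ∧ ∃ c, IsGLB {a, b} c := by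
      intro a b
      constructor
      · refine ⟨L.sup a b, ?_, ?_⟩
        · intro x hx
          simp only [Set.mem_insert_iff, Set.mem_singleton_iff] at hx
          rcases hx with rfl | rfl
          · exact (hL _ _).1 (L.le_sup_left _ _)
          · exact (hL _ _).1 (L.le_sup_right _ _)
        · intro x hx
          refine (hL _ _).1 (L.sup_le _ _ _ ((hL _ _).2 (hx (by simp))) ((hL _ _).2 (hx (by simp))))
      · refine ⟨L.inf a b, ?_, ?_⟩
        · intro x hx
          simp only [Set.mem_insert_iff, Set.mem_singleton_iff] at hx
          rcases hx with rfl | rfl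
          · exact (hL _ _).1 (L.inf_le_left _ _)
          · exact (hL _ _).1 (L.inf_le_right _ _)
        · intro x hx
          refine (hL _ _).1 (L.le_inf _ _ _ ((hL _ _).2 (hx (by simp))) ((hL _ _).2 (hx (by simp))))
    obtain ⟨CL, hCL⟩ := F P h1 h2 hlat
    have e : CL.toLattice.toSemilatticeInf.toPartialOrder = inst := po_ext hCL
    have hm : @IsModularLattice P CL.toLattice :=
      modular_transfer L CL.toLattice (fun a b => (hL a b).trans (hCL a b).symm) hmod
    have key : @PropC P CL.toLattice.toSemilatticeInf.toPartialOrder := @K P CL hm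
    rw [e] at key
    exact key

end RTR
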