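import Mathlib

/-!
# Retracts via commuting closure and anticlosure operators: definitions and statements
-/

set_option autoImplicit false

namespace RTR

universe u

variable {P : Type*}

/-- `r` is a retraction: order preserving and idempotent. -/
def IsRetraction [PartialOrder P] (r : P → P) : Prop :=
  Monotone r ∧ ∀ x, r (r x) = r x

/-- `R` is a retract of `P`: the image of a retraction. -/
def IsRetract [PartialOrder P] (R : Set P) : Prop :=
  ∃ r : P → P, IsRetraction r ∧ Set.range r = R

/-- A closure operator. -/
def IsClosureOp [PartialOrder P] (φ : P → P) : Prop :=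
  IsRetraction φ ∧ ∀ x, x ≤ φ x

/-- An anticlosure operator. -/
def IsAnticlosureOp [PartialOrder P] (ω : P → P) : Prop :=
  IsRetraction ω ∧ ∀ x, ω x ≤ x

/-- `R` arises from a commuting pair of a closure operator and an anticlosure operator. -/
def FromPair [PartialOrder P] (R : Set P) : Prop :=
  ∃ φ ω : P → P, IsClosureOp φ ∧ IsAnticlosureOp ω ∧ φ ∘ ω = ω ∘ φ ∧
    R = Set.range (φ ∘ ω) ∧ R = Set.range (ω ∘ φ) ∧ R = Set.range φ ∩ Set.range ω

/-- Property (C). -/
def PropC (P : Type*) [PartialOrder P] : Prop :=
  ∀ R : Set P, R.Nonempty → (IsRetract R ↔ FromPair R)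

/-- The partial order of `P` is that of a modular lattice. -/
def IsModLat (P : Type*) [PartialOrder P] : Prop :=
  ∃ L : Lattice P, (∀ a b : P, L.le a b ↔ a ≤ b) ∧ @IsModularLattice P L

/-! ## The pieces -/

/-- N: property (C) forces a lattice. -/
def LatStm : Prop := ∀ (P : Type u) [PartialOrder P], PropC P →
  ∀ a b : P, (∃ c, IsLUB {a, b} c) ∧ ∃ c, IsGLB {a, b} c

/-- M: property (C) forces the modular law. -/
def ModStm : Prop := ∀ (P : Type u) [Lattice P], PropC P → IsModularLattice P

/-- K: every complete modular lattice has property (C). -/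
def CompStm : Prop := ∀ (P : Type u) [CompleteLattice P] [IsModularLattice P], PropC P

/-- L: every chain has property (C). -/
def ChainStm : Prop := ∀ (P : Type u) [LinearOrder P], PropC P

/-- X: a conditionally complete distributive lattice without property (C). -/
def BadStm : Prop := ¬ PropC (ℕ × WithTop (ℕ ×ₗ ℕ))

/-- F: for a nonempty poset without infinite chains in which any two elements have a least upper
bound and a greatest lower bound there is a complete lattice structure with the same order. -/
def FinStm : Prop := ∀ (P : Type u) [PartialOrder P] [Nonempty P],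
  WellFounded (fun a b : P => a < b) → WellFounded (fun a b : P => b < a) →
  (∀ a b : P, (∃ c, IsLUB {a, b} c) ∧ ∃ c, IsGLB {a, b} c) →
  ∃ L : CompleteLattice P, ∀ a b : P, L.le a b ↔ a ≤ b

end RTR
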